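import Pool.Agent.H14.AVS.S2

/-!
# AVS, module UNI: the lattice in which a point is smooth is unique
-/

set_option autoImplicit false

namespace Pool.AVS

open Polynomial Matrix Pool.AVR

namespace UNI

variable {L : Type} [Field L] {O : ValuationSubring L} {π : L}

theorem mem_of_div (h : Loc L O π) {x : L} (hx : x / π ∈ O) : x ∈ O := by
  have := O.mul_mem _ _ hx h.pi_mem
  rwa [div_mul_cancel₀ _ h.pi_ne] at this

theorem dadd {x y : L} (hx : x / π ∈ O) (hy : y / π ∈ O) : (x + y) / π ∈ O := by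
  rw [add_div]; exact O.add_mem _ _ hx hy

theorem dsub {x y : L} (hx : x / π ∈ O) (hy : y / π ∈ O) : (x - y) / π ∈ O := by
  rw [sub_div]; exact O.sub_mem hx hy

theorem dmul {x y : L} (hx : x / π ∈ O) (hy : y ∈ O) : (x * y) / π ∈ O := by
  rw [mul_div_right_comm]; exact O.mul_mem _ _ hx hy

theorem unit_of_not (h : Loc L O π) {x : L} (hx : x ∈ O) (h1 : x / π ∉ O) :
    x ≠ 0 ∧ x⁻¹ ∈ O := by
  have hx0 : x ≠ 0 := by
    rintro rfl
    exact h1 (by simp [O.zero_mem])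
  refine ⟨hx0, ?_⟩
  by_contra hcon
  exact h1 ((h.unif x hx hx0).1 hcon)

theorem not_of_unit (h : Loc L O π) {x : L} (hx : x ∈ O) (hx0 : x ≠ 0) (h1 : x⁻¹ ∈ O) :
    x / π ∉ O := fun h2 => (h.unif x hx hx0).2 h2 h1

theorem mem_of_sq {x : L} (hx : x ^ 2 ∈ O) : x ∈ O := by
  rcases O.mem_or_inv_mem x with h | h
  · exact h
  · by_cases h0 : x = 0
    · rw [h0]; exact O.zero_mem
    · have : x = x ^ 2 * x⁻¹ := by field_simp
      rw [this]
      exact O.mul_mem _ _ hx h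

theorem AA_sq : AA L * AA L = 1 := by
  ext i j
  fin_cases i <;> fin_cases j <;> simp [AA, Matrix.mul_apply, Fin.sum_univ_three]

theorem AA_int (i j : Fin 3) : AA L i j ∈ O := by
  fin_cases i <;> fin_cases j <;> simp [AA, O.zero_mem, O.one_mem]

theorem MI_mul {g h : Matrix (Fin 3) (Fin 3) L} (hg : MI (O : Set L) g)
    (hh : MI (O : Set L) h) : MI (O : Set L) (g * h) := by
  intro i j
  rw [Matrix.mul_apply]
  exact O.toSubring.sum_mem fun k _ => O.mul_mem _ _ (hg i k) (hh k j)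

theorem MI_tr {g : Matrix (Fin 3) (Fin 3) L} (hg : MI (O : Set L) g) :
    MI (O : Set L) gᵀ := fun i j => hg j i

theorem inv_left {g : Matrix (Fin 3) (Fin 3) L} (h : gᵀ * AA L * g = AA L) :
    (AA L * gᵀ * AA L) * g = 1 := by
  have : AA L * gᵀ * AA L * g = AA L * (gᵀ * AA L * g) := by simp only [Matrix.mul_assoc]
  rw [this, h, AA_sq]

theorem inv_right {g : Matrix (Fin 3) (Fin 3) L} (h : gᵀ * AA L * g = AA L) :
    g * (AA L * gᵀ * AA L) = 1 := by
  exact mul_eq_one_comm.mp (inv_left h)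

theorem mv_int {g : Matrix (Fin 3) (Fin 3) L} (hg : MI (O : Set L) g) {v : Fin 3 → L}
    (hv : ∀ i, v i / π ∈ O) (i : Fin 3) : (g *ᵥ v) i / π ∈ O := by
  simp only [Matrix.mulVec, dotProduct, Fin.sum_univ_three]
  refine dadd (dadd ?_ ?_) ?_ <;>
  · rw [mul_comm]
    exact dmul (hv _) (hg _ _)

/-- The shape of a matrix preserving the antidiagonal form and the line of the first vector. -/
theorem shape {h : Matrix (Fin 3) (Fin 3) L} {m : L} (hm : m ≠ 0) (two : (2 : L) ≠ 0)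
    (hA : hᵀ * AA L * h = AA L) (hd : h.det = 1) (he : h *ᵥ ![1, 0, 0] = m • ![1, 0, 0]) :
    h 0 0 = m ∧ h 1 0 = 0 ∧ h 2 0 = 0 ∧ h 1 1 = 1 ∧ h 2 1 = 0 ∧ h 2 2 = m⁻¹ ∧
      h 1 2 = -h 0 1 / m ∧ h 0 2 = -h 0 1 ^ 2 / (2 * m) := by
  have e0 := congrFun he 0
  have e1 := congrFun he 1
  have e2 := congrFun he 2
  simp [Matrix.mulVec, dotProduct, Fin.sum_univ_three] at e0 e1 e2
  have a01 := congrFun (congrFun hA 0) 1
  have a02 := congrFun (congrFun hA 0) 2
  have a11 := congrFun (congrFun hA 1) 1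
  have a12 := congrFun (congrFun hA 1) 2
  have a22 := congrFun (congrFun hA 2) 2
  simp [Matrix.mul_apply, AA, Fin.sum_univ_three, e0, e1, e2] at a01 a02 a11 a12 a22
  rw [Matrix.det_fin_three] at hd
  simp [e0, e1, e2] at hd
  have h21 : h 2 1 = 0 := by
    rcases a01 with h | h
    · exact absurd h hm
    · exact h
  have h22 : h 2 2 = m⁻¹ := by
    field_simp
    linear_combination a02
  rw [h21] at a11 a12 hd
  rw [h22] at a12 a22 hd
  have h11 : h 1 1 = 1 := by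
    have : m * h 1 1 * m⁻¹ = 1 := by linear_combination hd
    field_simp at this
    exact this
  rw [h11] at a12
  have h12 : h 1 2 = -h 0 1 / m := by
    field_simp
    field_simp at a12
    linear_combination a12
  refine ⟨e0, e1, e2, h11, h21, h22, h12, ?_⟩
  rw [h12] at a22
  field_simp
  field_simp at a22
  linear_combination a22

/-- The entries of the transformed matrix. -/
theorem entries {h B : Matrix (Fin 3) (Fin 3) L} {m w : L} (hm : m ≠ 0) (two : (2 : L) ≠ 0)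
    (hA : hᵀ * AA L * h = AA L) (hd : h.det = 1) (he : h *ᵥ ![1, 0, 0] = m • ![1, 0, 0])
    (hB : Bᵀ = B) (h00 : B 0 0 = -w ^ 2) :
    (hᵀ * B * h) 0 1 = m * (B 0 1 - h 0 1 * w ^ 2) ∧
    (hᵀ * B * h) 0 2 = w ^ 2 * h 0 1 ^ 2 / 2 - B 0 1 * h 0 1 + B 0 2 ∧
    (hᵀ * B * h) 1 1 = -h 0 1 ^ 2 * w ^ 2 + 2 * h 0 1 * B 0 1 + B 1 1 ∧
    m * (hᵀ * B * h) 1 2 = w ^ 2 * h 0 1 ^ 3 / 2 - 3 / 2 * B 0 1 * h 0 1 ^ 2 +
      B 0 2 * h 0 1 - B 1 1 * h 0 1 + B 1 2 := by
  obtain ⟨s00, s10, s20, s11, s21, s22, s12, s02⟩ := shape hm two hA hd he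
  have b10 : B 1 0 = B 0 1 := congrFun (congrFun hB 0) 1
  have b20 : B 2 0 = B 0 2 := congrFun (congrFun hB 0) 2
  have b21 : B 2 1 = B 1 2 := congrFun (congrFun hB 1) 2
  refine ⟨?_, ?_, ?_, ?_⟩
  · simp only [Matrix.mul_apply, Matrix.transpose_apply, Fin.sum_univ_three, s00, s10, s20, s11,
      s21, b10, b20, b21, h00]
    ring
  · simp only [Matrix.mul_apply, Matrix.transpose_apply, Fin.sum_univ_three, s00, s10, s20, s22,
      s12, s02, b10, b20, b21, h00]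
    field_simp
    ring
  · simp only [Matrix.mul_apply, Matrix.transpose_apply, Fin.sum_univ_three, s11, s21, b10, b20,
      b21, h00]
    ring
  · simp only [Matrix.mul_apply, Matrix.transpose_apply, Fin.sum_univ_three, s11, s21, s22,
      s12, s02, b10, b20, b21, h00]
    field_simp
    ring

/-- The scalar core. -/
theorem core (hL : Loc L O π) {a b c02 c11 c12 d02 d11 d12 s m w : L} (hm : m ≠ 0)
    (hw0 : w ≠ 0) (ia : a ∈ O) (ib : b ∈ O) (i02 : c02 ∈ O) (i11 : c11 ∈ O) (i12 : c12 ∈ O)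
    (j02 : d02 ∈ O) (j11 : d11 ∈ O) (j12 : d12 ∈ O) (iw : w ∈ O) (iw' : m * w ∈ O)
    (e01 : b = m * (a - s * w ^ 2)) (e02 : d02 = w ^ 2 * s ^ 2 / 2 - a * s + c02)
    (e11 : d11 = -s ^ 2 * w ^ 2 + 2 * s * a + c11)
    (e12 : m * d12 = w ^ 2 * s ^ 3 / 2 - 3 / 2 * a * s ^ 2 + c02 * s - c11 * s + c12)
    (sm : ¬ (w / π ∈ O ∧ a / π ∈ O)) (sm' : ¬ ((m * w) / π ∈ O ∧ b / π ∈ O)) :
    m ∈ O ∧ m⁻¹ ∈ O ∧ s ∈ O := by
  obtain ⟨two, two'⟩ := hL.two
  have hmw : m * w ≠ 0 := mul_ne_zero hm hw0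
  have hx : c11 + (a / w) ^ 2 = d11 + (b / (m * w)) ^ 2 := by
    rw [e01, e11]
    field_simp
    ring
  by_cases hw : w / π ∈ O
  · have ha : a / π ∉ O := fun h => sm ⟨hw, h⟩
    obtain ⟨ha0, hai⟩ := unit_of_not hL ia ha
    have hmw' : (m * w) / π ∈ O := by
      by_contra hcon
      obtain ⟨_, hi⟩ := unit_of_not hL iw' hcon
      have h1 : b / (m * w) ∈ O := by rw [div_eq_mul_inv]; exact O.mul_mem _ _ ib hi
      have h2 : (a / w) ^ 2 ∈ O := by
        have : (a / w) ^ 2 = d11 + (b / (m * w)) ^ 2 - c11 := by linear_combination hx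
        rw [this]
        exact O.sub_mem (O.add_mem _ _ j11 (O.pow_mem h1 2)) i11
      have h3 := mem_of_sq h2
      apply ha
      have : a / π = w / π * (a / w) := by field_simp
      rw [this]
      exact O.mul_mem _ _ hw h3
    have hb : b / π ∉ O := fun h => sm' ⟨hmw', h⟩
    obtain ⟨hb0, hbi⟩ := unit_of_not hL ib hb
    have sq_not : ∀ x : L, x ∈ O → x⁻¹ ∈ O → x / π ∉ O → x ^ 2 / π ∉ O := by
      intro x _ hxi hx2 hcon
      apply hx2
      have := dmul hcon hxi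
      by_cases hx0 : x = 0
      · rw [hx0]; simp [O.zero_mem]
      · have h4 : x ^ 2 * x⁻¹ = x := by field_simp
        rwa [h4] at this
    have hu : (w ^ 2 * c11 + a ^ 2) / π ∉ O := by
      intro hcon
      apply sq_not a ia hai ha
      have h1 : (w ^ 2 * c11) / π ∈ O := by
        have := dmul hw (O.mul_mem _ _ iw i11)
        rwa [show w * (w * c11) = w ^ 2 * c11 by ring] at this
      have := dsub hcon h1
      rwa [add_sub_cancel_left] at this
    have hu' : ((m * w) ^ 2 * d11 + b ^ 2) / π ∉ O := by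
      intro hcon
      apply sq_not b ib hbi hb
      have h1 : ((m * w) ^ 2 * d11) / π ∈ O := by
        have := dmul hmw' (O.mul_mem _ _ iw' j11)
        rwa [show m * w * (m * w * d11) = (m * w) ^ 2 * d11 by ring] at this
      have := dsub hcon h1
      rwa [add_sub_cancel_left] at this
    have uO : w ^ 2 * c11 + a ^ 2 ∈ O :=
      O.add_mem _ _ (O.mul_mem _ _ (O.pow_mem iw 2) i11) (O.pow_mem ia 2)
    have uO' : (m * w) ^ 2 * d11 + b ^ 2 ∈ O :=
      O.add_mem _ _ (O.mul_mem _ _ (O.pow_mem iw' 2) j11) (O.pow_mem ib 2)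
    obtain ⟨u0, ui⟩ := unit_of_not hL uO hu
    obtain ⟨u0', ui'⟩ := unit_of_not hL uO' hu'
    have huu : (m * w) ^ 2 * d11 + b ^ 2 = m ^ 2 * (w ^ 2 * c11 + a ^ 2) := by
      rw [e01, e11]; ring
    have hm2 : m ^ 2 = ((m * w) ^ 2 * d11 + b ^ 2) * (w ^ 2 * c11 + a ^ 2)⁻¹ := by
      rw [huu]; field_simp
    have hm3 : m⁻¹ ^ 2 = (w ^ 2 * c11 + a ^ 2) * ((m * w) ^ 2 * d11 + b ^ 2)⁻¹ := by
      rw [huu]; field_simp
    have mO : m ∈ O := mem_of_sq (by rw [hm2]; exact O.mul_mem _ _ uO' ui)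
    have mO' : m⁻¹ ∈ O := mem_of_sq (by rw [hm3]; exact O.mul_mem _ _ uO ui')
    have key : (b - m * a) * (w ^ 2 * c11 + a ^ 2) =
        w * (w * (b * d02 + m * w ^ 2 * (m * d12) - m * a * c02 - m * w ^ 2 * c12)) := by
      rw [e12, e02, e01]
      field_simp
      ring
    have hk : (b - m * a) / π ∈ O := by
      have h1 : ((b - m * a) * (w ^ 2 * c11 + a ^ 2)) / π ∈ O := by
        rw [key]
        refine dmul hw (O.mul_mem _ _ iw ?_)
        refine O.sub_mem (O.sub_mem (O.add_mem _ _ (O.mul_mem _ _ ib j02) ?_) ?_) ?_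
        · exact O.mul_mem _ _ (O.mul_mem _ _ mO (O.pow_mem iw 2)) (O.mul_mem _ _ mO j12)
        · exact O.mul_mem _ _ (O.mul_mem _ _ mO ia) i02
        · exact O.mul_mem _ _ (O.mul_mem _ _ mO (O.pow_mem iw 2)) i12
      have h2 := dmul h1 ui
      rwa [mul_assoc, mul_inv_cancel₀ u0, mul_one] at h2
    have hS : (m * a + b) / π ∉ O := by
      intro hcon
      have h1 := dsub hcon hk
      have h2 := dmul h1 (O.mul_mem _ _ two' mO')
      apply ha
      have h3 : (m * a + b - (b - m * a)) * ((2 : L)⁻¹ * m⁻¹) = a := by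
        field_simp
        ring
      rwa [h3] at h2
    obtain ⟨S0, Si⟩ := unit_of_not hL (O.add_mem _ _ (O.mul_mem _ _ mO ia) ib) hS
    refine ⟨mO, mO', ?_⟩
    have hs : s = (d11 - c11) * m * (m * a + b)⁻¹ := by
      rw [eq_mul_inv_iff_mul_eq₀ S0, e01, e11]
      ring
    rw [hs]
    exact O.mul_mem _ _ (O.mul_mem _ _ (O.sub_mem j11 i11) mO) Si
  · obtain ⟨_, wi⟩ := unit_of_not hL iw hw
    have h1 : a / w ∈ O := by rw [div_eq_mul_inv]; exact O.mul_mem _ _ ia wi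
    have h2 : (b / (m * w)) ^ 2 ∈ O := by
      have : (b / (m * w)) ^ 2 = c11 + (a / w) ^ 2 - d11 := by linear_combination -hx
      rw [this]
      exact O.sub_mem (O.add_mem _ _ i11 (O.pow_mem h1 2)) j11
    have h3 := mem_of_sq h2
    have hmw' : (m * w) / π ∉ O := by
      intro hcon
      apply sm'
      refine ⟨hcon, ?_⟩
      have : b / π = m * w / π * (b / (m * w)) := by field_simp
      rw [this]
      exact O.mul_mem _ _ hcon h3
    obtain ⟨_, mwi⟩ := unit_of_not hL iw' hmw'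
    have mO : m ∈ O := by
      have : m = m * w * w⁻¹ := by field_simp
      rw [this]
      exact O.mul_mem _ _ iw' wi
    have mO' : m⁻¹ ∈ O := by
      have : m⁻¹ = w * (m * w)⁻¹ := by field_simp
      rw [this]
      exact O.mul_mem _ _ iw mwi
    refine ⟨mO, mO', ?_⟩
    have hs : s = (a - b * m⁻¹) * w⁻¹ ^ 2 := by
      rw [e01]
      field_simp
      ring
    rw [hs]
    exact O.mul_mem _ _ (O.sub_mem ia (O.mul_mem _ _ ib mO')) (O.pow_mem wi 2)

theorem bil_tr (g B : Matrix (Fin 3) (Fin 3) L) (u v : Fin 3 → L) :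
    bil (gᵀ * B * g) u v = bil B (g *ᵥ u) (g *ᵥ v) := by
  unfold bil
  rw [← Matrix.mulVec_mulVec, ← Matrix.mulVec_mulVec, Matrix.dotProduct_mulVec,
    Matrix.vecMul_transpose]

theorem bil_smul (B : Matrix (Fin 3) (Fin 3) L) (c : L) (u v : Fin 3 → L) :
    bil B (c • u) (c • v) = c ^ 2 * bil B u v := by
  unfold bil
  rw [Matrix.mulVec_smul, smul_dotProduct, dotProduct_smul, smul_eq_mul, smul_eq_mul]
  ring

theorem bil_e0 (B : Matrix (Fin 3) (Fin 3) L) : bil B ![1, 0, 0] ![1, 0, 0] = B 0 0 := by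
  simp [bil, Matrix.mulVec, dotProduct, Fin.sum_univ_three]

/-- Moving a smooth point to the first vector. -/
theorem move {C g : Matrix (Fin 3) (Fin 3) L} {z : Fin 3 → L} {w t : L}
    (hC : Cᵀ = C) (iC : MI (O : Set L) C) (hg : gᵀ * AA L * g = AA L)
    (ig : MI (O : Set L) g) (ht : UI (O : Set L) t) (hz : g *ᵥ ![1, 0, 0] = t • z)
    (hw : w ^ 2 = -bil C z z) (hS : Smo (O : Set L) π (AA L) C z w) :
    (gᵀ * C * g)ᵀ = gᵀ * C * g ∧ MI (O : Set L) (gᵀ * C * g) ∧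
      (gᵀ * C * g) 0 0 = -(t * w) ^ 2 ∧ t * w ∈ O ∧
      ¬ ((t * w) / π ∈ O ∧ (gᵀ * C * g) 0 1 / π ∈ O) := by
  obtain ⟨hz1, hw1, hz2, hz3, hz4, hz5⟩ := hS
  obtain ⟨t0, tO, tiO⟩ := ht
  have hsym : (gᵀ * C * g)ᵀ = gᵀ * C * g := by
    rw [Matrix.transpose_mul, Matrix.transpose_mul, Matrix.transpose_transpose, hC,
      Matrix.mul_assoc]
  have hint : MI (O : Set L) (gᵀ * C * g) := MI_mul (MI_mul (MI_tr ig) iC) ig
  have h00 : (gᵀ * C * g) 0 0 = -(t * w) ^ 2 := by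
    have k := bil_e0 (gᵀ * C * g)
    rw [bil_tr, hz, bil_smul] at k
    rw [← k]
    linear_combination t ^ 2 * hw
  refine ⟨hsym, hint, h00, O.mul_mem _ _ tO hw1, ?_⟩
  rintro ⟨k1, k2⟩
  apply hz5
  constructor
  · have := dmul k1 tiO
    rwa [show t * w * t⁻¹ = w by field_simp] at this
  · refine ⟨(gᵀ * C * g) 0 2, hint 0 2, ?_⟩
    set C1 := gᵀ * C * g with hC1
    have e1 : gᵀ *ᵥ (C *ᵥ (t • z) - C1 0 2 • (AA L *ᵥ (t • z))) =
        C1 *ᵥ ![1, 0, 0] - C1 0 2 • (AA L *ᵥ ![1, 0, 0]) := by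
      rw [← hz, Matrix.mulVec_sub, Matrix.mulVec_smul]
      congr 1
      · rw [Matrix.mulVec_mulVec, Matrix.mulVec_mulVec]
      · rw [Matrix.mulVec_mulVec, Matrix.mulVec_mulVec, hg]
    have e2 : (AA L * g * AA L) * gᵀ = 1 := by
      have := congrArg Matrix.transpose (inv_right hg)
      rw [Matrix.transpose_mul, Matrix.transpose_mul, Matrix.transpose_mul,
        Matrix.transpose_transpose, Matrix.transpose_one] at this
      have hAt : (AA L)ᵀ = AA L := by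
        ext i j
        fin_cases i <;> fin_cases j <;> simp [AA]
      rw [hAt] at this
      rw [← this]
      simp only [Matrix.mul_assoc]
    have e3 : C *ᵥ (t • z) - C1 0 2 • (AA L *ᵥ (t • z)) =
        (AA L * g * AA L) *ᵥ (C1 *ᵥ ![1, 0, 0] - C1 0 2 • (AA L *ᵥ ![1, 0, 0])) := by
      rw [← e1, Matrix.mulVec_mulVec, e2, Matrix.one_mulVec]
    have c10 : C1 1 0 = C1 0 1 := congrFun (congrFun hsym 0) 1
    have c20 : C1 2 0 = C1 0 2 := congrFun (congrFun hsym 0) 2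
    have e4 : ∀ i, (C1 *ᵥ ![1, 0, 0] - C1 0 2 • (AA L *ᵥ ![1, 0, 0])) i / π ∈ O := by
      intro i
      fin_cases i
      · have : (C1 *ᵥ ![1, 0, 0] - C1 0 2 • (AA L *ᵥ ![1, 0, 0])) 0 = (t * w) * -(t * w) := by
          simp [Matrix.mulVec, dotProduct, Fin.sum_univ_three, AA, h00]
          ring
        change (C1 *ᵥ ![1, 0, 0] - C1 0 2 • (AA L *ᵥ ![1, 0, 0])) 0 / π ∈ O
        rw [this]
        exact dmul k1 (O.neg_mem _ (O.mul_mem _ _ tO hw1))
      · have : (C1 *ᵥ ![1, 0, 0] - C1 0 2 • (AA L *ᵥ ![1, 0, 0])) 1 = C1 0 1 := by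
          simp [Matrix.mulVec, dotProduct, Fin.sum_univ_three, AA, c10]
        change (C1 *ᵥ ![1, 0, 0] - C1 0 2 • (AA L *ᵥ ![1, 0, 0])) 1 / π ∈ O
        rw [this]
        exact k2
      · have : (C1 *ᵥ ![1, 0, 0] - C1 0 2 • (AA L *ᵥ ![1, 0, 0])) 2 = 0 := by
          simp [Matrix.mulVec, dotProduct, Fin.sum_univ_three, AA, c20]
        change (C1 *ᵥ ![1, 0, 0] - C1 0 2 • (AA L *ᵥ ![1, 0, 0])) 2 / π ∈ O
        rw [this, zero_div]
        exact O.zero_mem
    intro i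
    have iA : MI (O : Set L) (AA L) := fun i j => AA_int i j
    have e5 := mv_int (MI_mul (MI_mul iA ig) iA) e4 i
    rw [← e3] at e5
    have e6 := dmul e5 tiO
    have e7 : (C *ᵥ (t • z) - C1 0 2 • (AA L *ᵥ (t • z))) i * t⁻¹ =
        (C *ᵥ z) i - C1 0 2 * (AA L *ᵥ z) i := by
      simp only [Matrix.mulVec_smul, Pi.sub_apply, Pi.smul_apply, smul_eq_mul]
      field_simp
    rwa [e7] at e6

end UNI

open UNI in
theorem uni_thm (hTRN : TRNStmt) : UNIStmt := by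
  intro L _ O π hL B g z z' w w' μ hB iB hg hgd iB' hcov hw0 hS hμ hgz hw' hS'
  obtain ⟨hz0, hza, hzw⟩ := hcov
  obtain ⟨two, two'⟩ := hL.two
  have hS1 := hS
  have hS2 := hS'
  obtain ⟨p1, p2, p3, p4, p5, p6⟩ := hS1
  obtain ⟨q1, q2, q3, q4, q5, q6⟩ := hS2
  have hz'a : bil (AA L) z' z' = 0 := by
    rw [← hg, bil_tr, hgz, bil_smul, hza, mul_zero]
  have hz'w : w' ^ 2 = -bil (gᵀ * B * g) z' z' := by
    rw [bil_tr, hgz, bil_smul, hw']
    linear_combination μ ^ 2 * hzw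
  obtain ⟨g1, t1, a1, d1, i1, u1, f1⟩ := hTRN L O π hL z p1 p3 hza
  obtain ⟨g2, t2, a2, d2, i2, u2, f2⟩ := hTRN L O π hL z' q1 q3 hz'a
  have hB' : (gᵀ * B * g)ᵀ = gᵀ * B * g := by
    rw [Matrix.transpose_mul, Matrix.transpose_mul, Matrix.transpose_transpose, hB,
      Matrix.mul_assoc]
  obtain ⟨m1, m2, m3, m4, m5⟩ := move hB iB a1 i1 u1 f1 hzw hS
  obtain ⟨n1, n2, n3, n4, n5⟩ := move hB' iB' a2 i2 u2 f2 hz'w hS'
  have hAt : (AA L)ᵀ = AA L := by
    ext i j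
    fin_cases i <;> fin_cases j <;> simp [AA]
  have hAd : (AA L).det = -1 := by simp [AA, Matrix.det_fin_three]
  have iA : MI (O : Set L) (AA L) := fun i j => AA_int i j
  obtain ⟨h, hh⟩ : ∃ h : Matrix (Fin 3) (Fin 3) L, h = (AA L * g1ᵀ * AA L) * (g * g2) :=
    ⟨_, rfl⟩
  have hgh : g1 * h = g * g2 := by
    rw [hh, ← Matrix.mul_assoc g1, inv_right a1, Matrix.one_mul]
  have hA : hᵀ * AA L * h = AA L := by
    have : hᵀ * AA L * h = (g1 * h)ᵀ * AA L * (g1 * h) := by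
      rw [Matrix.transpose_mul]
      calc hᵀ * AA L * h = hᵀ * (g1ᵀ * AA L * g1) * h := by rw [a1]
        _ = _ := by simp only [Matrix.mul_assoc]
    rw [this, hgh, Matrix.transpose_mul]
    calc g2ᵀ * gᵀ * AA L * (g * g2) = g2ᵀ * (gᵀ * AA L * g) * g2 := by
          simp only [Matrix.mul_assoc]
      _ = AA L := by rw [hg, a2]
  have hd : h.det = 1 := by
    have := congrArg Matrix.det hgh
    rw [Matrix.det_mul, Matrix.det_mul, d1, hgd, d2, one_mul, one_mul] at this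
    exact this
  have hm : t2 * μ / t1 ≠ 0 := div_ne_zero (mul_ne_zero u2.1 hμ) u1.1
  have he : h *ᵥ ![1, 0, 0] = (t2 * μ / t1) • ![1, 0, 0] := by
    have k1 : z = t1⁻¹ • (g1 *ᵥ ![1, 0, 0]) := by
      rw [f1, smul_smul, inv_mul_cancel₀ u1.1, one_smul]
    have k2 : (g * g2) *ᵥ ![1, 0, 0] = (t2 * μ / t1) • (g1 *ᵥ ![1, 0, 0]) := by
      rw [← Matrix.mulVec_mulVec, f2, Matrix.mulVec_smul, hgz, k1, smul_smul, smul_smul,
        div_eq_mul_inv]
    rw [hh, ← Matrix.mulVec_mulVec, k2, Matrix.mulVec_smul, Matrix.mulVec_mulVec, inv_left a1,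
      Matrix.one_mulVec]
  have hBB : g2ᵀ * (gᵀ * B * g) * g2 = hᵀ * (g1ᵀ * B * g1) * h := by
    calc g2ᵀ * (gᵀ * B * g) * g2 = (g * g2)ᵀ * B * (g * g2) := by
          rw [Matrix.transpose_mul]; simp only [Matrix.mul_assoc]
      _ = (g1 * h)ᵀ * B * (g1 * h) := by rw [hgh]
      _ = _ := by rw [Matrix.transpose_mul]; simp only [Matrix.mul_assoc]
  obtain ⟨r01, r02, r11, r12⟩ := entries hm two hA hd he m1 m3
  rw [← hBB] at r01 r02 r11 r12
  have hw2 : t2 * w' = t2 * μ / t1 * (t1 * w) := by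
    rw [hw']
    have := u1.1
    field_simp
  rw [hw2] at n4 n5
  obtain ⟨c1, c2, c3⟩ := core hL hm (mul_ne_zero u1.1 hw0) (m2 0 1) (n2 0 1) (m2 0 2) (m2 1 1)
    (m2 1 2) (n2 0 2) (n2 1 1) (n2 1 2) m4 n4 r01 r02 r11 r12 m5 n5
  obtain ⟨s00, s10, s20, s11, s21, s22, s12, s02⟩ := shape hm two hA hd he
  have ih : MI (O : Set L) h := by
    have k12 : h 1 2 ∈ O := by
      rw [s12, div_eq_mul_inv]
      exact O.mul_mem _ _ (O.neg_mem _ c3) c2
    have k02 : h 0 2 ∈ O := by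
      rw [s02, div_eq_mul_inv, mul_inv]
      exact O.mul_mem _ _ (O.neg_mem _ (O.pow_mem c3 2)) (O.mul_mem _ _ two' c2)
    intro i j
    fin_cases i <;> fin_cases j
    · change h 0 0 ∈ O; rw [s00]; exact c1
    · exact c3
    · exact k02
    · change h 1 0 ∈ O; rw [s10]; exact O.zero_mem
    · change h 1 1 ∈ O; rw [s11]; exact O.one_mem
    · exact k12
    · change h 2 0 ∈ O; rw [s20]; exact O.zero_mem
    · change h 2 1 ∈ O; rw [s21]; exact O.zero_mem
    · change h 2 2 ∈ O; rw [s22]; exact c2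
  have hfin : g = g1 * h * (AA L * g2ᵀ * AA L) := by
    rw [hgh, Matrix.mul_assoc, inv_right a2, Matrix.mul_one]
  rw [hfin]
  exact MI_mul (MI_mul i1 ih) (MI_mul (MI_mul iA (MI_tr i2)) iA)

end Pool.AVS
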